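import Pool.Agent.Lib_helper60.HopfAll

/-!
# MP_836a1f_al: a Hopfian group whose integral group ring is not Hopfian

The negated form of Q1, for a countable group, and with arbitrary nontrivial commutative rings of
coefficients for the same group.
-/

set_option autoImplicit false

namespace Pool.Agent.Results.MP_836a1f_al.NonHopfianZG

universe u

/-- The group `G` is Hopfian: every surjective group endomorphism of `G` is injective. -/
def IsHopfianGroup (G : Type) [Group G] : Prop :=
  ∀ f : G →* G, Function.Surjective f → Function.Injective f

/-- The ring `A` is Hopfian: every surjective ring endomorphism of `A` is injective. -/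
def IsHopfianRing (A : Type) [Ring A] : Prop :=
  ∀ f : A →+* A, Function.Surjective f → Function.Injective f

/-- There is a countable Hopfian group `G` whose integral group ring is not a Hopfian ring. Moreover,
for every nontrivial commutative ring `R`, the group algebra `R[G]` of the same group `G` has a
surjective `R`-algebra endomorphism which is not injective. -/
theorem result : ∃ (G : Type) (_ : Group G), Countable G ∧ IsHopfianGroup G ∧
    ¬ IsHopfianRing (MonoidAlgebra ℤ G) ∧
    ∀ (R : Type u) [CommRing R] [Nontrivial R],
      ∃ φ : MonoidAlgebra R G →ₐ[R] MonoidAlgebra R G,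
        Function.Surjective φ ∧ ¬ Function.Injective φ := by
  obtain ⟨G, inst, hc, hG, F, g, hg, hF, hs⟩ := Pool.Agent.HopfZG.main_all
  refine ⟨G, inst, hc, hG, ?_, ?_⟩
  · intro h
    obtain ⟨φ, h1, h2⟩ := Pool.Agent.HopfZG.coeff_change F g hg hF hs ℤ
    exact h2 (h φ.toRingHom h1)
  · intro R _ _
    exact Pool.Agent.HopfZG.coeff_change F g hg hF hs R

end Pool.Agent.Results.MP_836a1f_al.NonHopfianZG
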